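import Mathlib

set_option autoImplicit false

/-! Digraphs with parallel edges, generalized cycles (directed cycles and two-way infinite
directed paths) and generalized reversion sequences. -/

namespace Pool.Agent.Helper24.GR

open Function Order

universe u v

/-- A digraph with vertex set `V` and edge set `E`, possibly infinite, parallel edges allowed,
no loops. -/
@[ext] structure Dig (V : Type u) (E : Type v) where
  /-- the tail of an edge -/
  src : E → V
  /-- the head of an edge -/
  tgt : E → V
  noloop : ∀ e, src e ≠ tgt e

variable {V : Type u} {E : Type v}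

open Classical in
/-- The digraph obtained by reversing all the edges in `S`. -/
noncomputable def Dig.flip (D : Dig V E) (S : Set E) : Dig V E where
  src e := if e ∈ S then D.tgt e else D.src e
  tgt e := if e ∈ S then D.src e else D.tgt e
  noloop e := by
    by_cases h : e ∈ S
    · simpa [h] using (D.noloop e).symm
    · simpa [h] using D.noloop e

/-- `C` is the edge set of a directed cycle, on at least two vertices. -/
def IsCycle (D : Dig V E) (C : Set E) : Prop :=
  ∃ n : ℕ, 2 ≤ n ∧ ∃ (x : ZMod n → V) (a : ZMod n → E), Injective x ∧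
    (∀ i, D.src (a i) = x i ∧ D.tgt (a i) = x (i + 1)) ∧ C = Set.range a

/-- `C` is the edge set of a two-way infinite directed path. -/
def IsZChain (D : Dig V E) (C : Set E) : Prop :=
  ∃ (x : ℤ → V) (a : ℤ → E), Injective x ∧
    (∀ i, D.src (a i) = x i ∧ D.tgt (a i) = x (i + 1)) ∧ C = Set.range a

/-- Directed cycles and two-way infinite directed paths. -/
def GenCyc (D : Dig V E) (C : Set E) : Prop := IsCycle D C ∨ IsZChain D C

/-- `D'` is the result of a generalized reversion sequence starting with `D`: a sequence `O` of
digraphs, indexed by the ordinals up to `α`, in which every step reverses a directed cycle or a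
two-way infinite directed path, and in which, at every limit, the orientation of every edge is
eventually constant, and the limit is taken. -/
def Reversion (D D' : Dig V E) : Prop :=
  ∃ (α : Ordinal.{v}) (O : Ordinal.{v} → Dig V E), O 0 = D ∧ O α = D' ∧
    (∀ ξ < α, ∃ C, GenCyc (O ξ) C ∧ O (succ ξ) = (O ξ).flip C) ∧
    ∀ l ≤ α, IsSuccLimit l → ∀ e, ∃ ξ < l, ∀ η, ξ ≤ η → η < l →
      (O η).src e = (O l).src e ∧ (O η).tgt e = (O l).tgt e

/-! ### Internal notions -/

/-- Every vertex is an end of finitely many edges of `B`. -/
def LocFin (D : Dig V E) (B : Set E) : Prop :=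
  ∀ v, {e | e ∈ B ∧ (D.src e = v ∨ D.tgt e = v)}.Finite

/-- In-degree minus out-degree of `v` in `B`. -/
noncomputable def imb (D : Dig V E) (B : Set E) (v : V) : ℤ :=
  ({e | e ∈ B ∧ D.tgt e = v}.ncard : ℤ) - ({e | e ∈ B ∧ D.src e = v}.ncard : ℤ)

/-- Locally finite, and in-degree and out-degree agree at every vertex. -/
def Bal (D : Dig V E) (B : Set E) : Prop := LocFin D B ∧ ∀ v, imb D B v = 0

/-- The set of reversed edges before step `i` of the family `C`, if `Φ` is the set of the edges
which are reversed at the beginning. -/
def stage {ι : Type v} [LinearOrder ι] (Φ : Set E) (C : ι → Set E) (i : ι) : Set E :=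
  {e | Xor (e ∈ Φ) (Odd {j | j < i ∧ e ∈ C j}.ncard)}

/-- The set of reversed edges at the end. -/
def final {ι : Type v} (Φ : Set E) (C : ι → Set E) : Set E :=
  {e | Xor (e ∈ Φ) (Odd {j | e ∈ C j}.ncard)}

/-- `Reach D S Φ Ψ`: if one starts with the orientation `D.flip Φ`, one can get `D.flip Ψ` by a
well-ordered sequence of reversals of generalized cycles contained in `S`. -/
def Reach (D : Dig V E) (S Φ Ψ : Set E) : Prop :=
  ∃ (ι : Type v) (_ : LinearOrder ι) (_ : WellFoundedLT ι) (C : ι → Set E),
    (∀ e, {j | e ∈ C j}.Finite) ∧ (∀ i, C i ⊆ S) ∧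
    (∀ i, GenCyc (D.flip (stage Φ C i)) (C i)) ∧ Ψ = final Φ C

end Pool.Agent.Helper24.GR
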