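import Mathlib
import Pool.Agent.Helper24.GR.Defs

set_option autoImplicit false

/-! Elementary facts on flips, locally finite sets, imbalances. -/

namespace Pool.Agent.Helper24.GR

open Function

universe u v

variable {V : Type u} {E : Type v} {D : Dig V E}

/-! ### Flips -/

theorem flip_src_of_mem {S : Set E} {e : E} (h : e ∈ S) : (D.flip S).src e = D.tgt e := by
  simp [Dig.flip, h]

theorem flip_tgt_of_mem {S : Set E} {e : E} (h : e ∈ S) : (D.flip S).tgt e = D.src e := by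
  simp [Dig.flip, h]

theorem flip_src_of_notMem {S : Set E} {e : E} (h : e ∉ S) : (D.flip S).src e = D.src e := by
  simp [Dig.flip, h]

theorem flip_tgt_of_notMem {S : Set E} {e : E} (h : e ∉ S) : (D.flip S).tgt e = D.tgt e := by
  simp [Dig.flip, h]

@[simp] theorem flip_empty : D.flip ∅ = D := by
  ext e <;> simp [Dig.flip]

theorem flip_flip (S T : Set E) : (D.flip S).flip T = D.flip (symmDiff S T) := by
  ext e <;> by_cases h1 : e ∈ S <;> by_cases h2 : e ∈ T <;>
    simp [Dig.flip, Set.mem_symmDiff, h1, h2]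

theorem flip_congr {S T : Set E} {e : E} (h : e ∈ S ↔ e ∈ T) :
    (D.flip S).src e = (D.flip T).src e ∧ (D.flip S).tgt e = (D.flip T).tgt e := by
  by_cases h1 : e ∈ S
  · have h2 := h.1 h1
    simp [Dig.flip, h1, h2]
  · have h2 : e ∉ T := fun h3 => h1 (h.2 h3)
    simp [Dig.flip, h1, h2]

/-- Being a generalized cycle depends on the orientation of the edges of the set only. -/
theorem GenCyc.congr {D D' : Dig V E} {C : Set E} (h : GenCyc D C)
    (h' : ∀ e ∈ C, D.src e = D'.src e ∧ D.tgt e = D'.tgt e) : GenCyc D' C := by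
  rcases h with ⟨n, hn, x, a, hx, ha, rfl⟩ | ⟨x, a, hx, ha, rfl⟩
  · refine Or.inl ⟨n, hn, x, a, hx, fun i => ?_, rfl⟩
    obtain ⟨h1, h2⟩ := h' (a i) ⟨i, rfl⟩
    rw [← h1, ← h2]; exact ha i
  · refine Or.inr ⟨x, a, hx, fun i => ?_, rfl⟩
    obtain ⟨h1, h2⟩ := h' (a i) ⟨i, rfl⟩
    rw [← h1, ← h2]; exact ha i

theorem GenCyc.flip_congr {C S T : Set E} (h : GenCyc (D.flip S) C)
    (h' : ∀ e ∈ C, (e ∈ S ↔ e ∈ T)) : GenCyc (D.flip T) C :=
  h.congr fun _ he => GR.flip_congr (h' _ he)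

theorem GenCyc.nonempty {C : Set E} (h : GenCyc D C) : C.Nonempty := by
  rcases h with ⟨n, hn, x, a, hx, ha, rfl⟩ | ⟨x, a, hx, ha, rfl⟩
  · exact ⟨a 0, 0, rfl⟩
  · exact ⟨a 0, 0, rfl⟩

theorem GenCyc.countable {C : Set E} (h : GenCyc D C) : C.Countable := by
  rcases h with ⟨n, hn, x, a, hx, ha, rfl⟩ | ⟨x, a, hx, ha, rfl⟩
  · have : NeZero n := ⟨by omega⟩
    exact (Set.finite_range a).countable
  · exact Set.countable_range a

/-! ### Locally finite sets -/

theorem LocFin.mono {B B' : Set E} (h : LocFin D B) (h' : B' ⊆ B) : LocFin D B' := fun v =>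
  (h v).subset fun _ he => ⟨h' he.1, he.2⟩

theorem LocFin.union {B B' : Set E} (h : LocFin D B) (h' : LocFin D B') : LocFin D (B ∪ B') :=
  fun v => ((h v).union (h' v)).subset fun _ he => he.1.imp (fun h => ⟨h, he.2⟩) fun h => ⟨h, he.2⟩

theorem LocFin.biUnion {ι : Type*} {C : ι → Set E} (F : Finset ι) (h : ∀ i ∈ F, LocFin D (C i)) :
    LocFin D (⋃ i ∈ F, C i) := by
  intro v
  refine (Set.Finite.biUnion F.finite_toSet fun i hi => h i hi v).subset ?_
  rintro e ⟨he, hv⟩
  simp only [Set.mem_iUnion] at he ⊢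
  obtain ⟨i, hi, he⟩ := he
  exact ⟨i, hi, he, hv⟩

theorem locFin_empty : LocFin D ∅ := fun v => by simp

theorem locFin_flip {B S : Set E} : LocFin (D.flip S) B ↔ LocFin D B := by
  refine forall_congr' fun v => ?_
  have : {e | e ∈ B ∧ ((D.flip S).src e = v ∨ (D.flip S).tgt e = v)} =
      {e | e ∈ B ∧ (D.src e = v ∨ D.tgt e = v)} := by
    ext e
    by_cases h : e ∈ S
    · simp only [Set.mem_ofPred_eq, flip_src_of_mem h, flip_tgt_of_mem h]
      tauto
    · simp only [Set.mem_ofPred_eq, flip_src_of_notMem h, flip_tgt_of_notMem h]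
  rw [this]

theorem LocFin.tgt {B : Set E} (h : LocFin D B) (v : V) : {e | e ∈ B ∧ D.tgt e = v}.Finite :=
  (h v).subset fun _ he => ⟨he.1, Or.inr he.2⟩

theorem LocFin.src {B : Set E} (h : LocFin D B) (v : V) : {e | e ∈ B ∧ D.src e = v}.Finite :=
  (h v).subset fun _ he => ⟨he.1, Or.inl he.2⟩

/-! ### Imbalances -/

theorem ncard_sep_union {B B' : Set E} {P : E → Prop} (h1 : {e | e ∈ B ∧ P e}.Finite)
    (h2 : {e | e ∈ B' ∧ P e}.Finite) (hd : Disjoint B B') :
    {e | e ∈ B ∪ B' ∧ P e}.ncard = {e | e ∈ B ∧ P e}.ncard + {e | e ∈ B' ∧ P e}.ncard := by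
  rw [← Set.ncard_union_eq ?_ h1 h2]
  · congr 1
    ext e
    simp only [Set.mem_union, Set.mem_ofPred_eq]
    tauto
  · rw [Set.disjoint_left]
    rintro e ⟨he, -⟩ ⟨he', -⟩
    exact Set.disjoint_left.1 hd he he'

theorem imb_union {B B' : Set E} (h : LocFin D B) (h' : LocFin D B') (hd : Disjoint B B')
    (v : V) : imb D (B ∪ B') v = imb D B v + imb D B' v := by
  unfold imb
  rw [ncard_sep_union (h.tgt v) (h'.tgt v) hd, ncard_sep_union (h.src v) (h'.src v) hd]
  push_cast
  ring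

theorem imb_sdiff {B B' : Set E} (h : LocFin D B) (h' : B' ⊆ B) (v : V) :
    imb D (B \ B') v = imb D B v - imb D B' v := by
  have h1 := imb_union (h.mono h') (h.mono (Set.sdiff_subset (t := B'))) Set.disjoint_sdiff_right v
  rw [Set.union_sdiff_cancel h'] at h1
  linarith

theorem imb_empty (v : V) : imb D ∅ v = 0 := by simp [imb]

theorem bal_empty : Bal D ∅ := ⟨locFin_empty, imb_empty⟩

theorem Bal.union {B B' : Set E} (h : Bal D B) (h' : Bal D B') (hd : Disjoint B B') :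
    Bal D (B ∪ B') :=
  ⟨h.1.union h'.1, fun v => by rw [imb_union h.1 h'.1 hd, h.2, h'.2, add_zero]⟩

theorem Bal.sdiff {B B' : Set E} (h : Bal D B) (h' : Bal D B') (hs : B' ⊆ B) :
    Bal D (B \ B') :=
  ⟨h.1.mono Set.sdiff_subset, fun v => by rw [imb_sdiff h.1 hs, h.2, h'.2, sub_zero]⟩

theorem Bal.biUnion {ι : Type*} {C : ι → Set E} (F : Finset ι)
    (hd : (F : Set ι).PairwiseDisjoint C) (h : ∀ i ∈ F, Bal D (C i)) :
    Bal D (⋃ i ∈ F, C i) := by
  classical
  induction F using Finset.induction_on with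
  | empty => simpa using bal_empty
  | insert i F hi ih =>
    rw [Finset.set_biUnion_insert]
    refine (h i (Finset.mem_insert_self _ _)).union (ih ?_ fun j hj => h j
      (Finset.mem_insert_of_mem hj)) ?_
    · exact hd.subset (by simp)
    · rw [Set.disjoint_iUnion₂_right]
      intro j hj
      refine hd (by simp) (by simp [hj]) ?_
      rintro rfl
      exact hi hj

theorem imb_congr {B B' : Set E} {v : V}
    (h : ∀ e, (D.src e = v ∨ D.tgt e = v) → (e ∈ B ↔ e ∈ B')) : imb D B v = imb D B' v := by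
  unfold imb
  have h1 : {e | e ∈ B ∧ D.tgt e = v} = {e | e ∈ B' ∧ D.tgt e = v} := by
    ext e
    simp only [Set.mem_ofPred_eq]
    constructor
    · rintro ⟨h1, h2⟩; exact ⟨(h e (Or.inr h2)).1 h1, h2⟩
    · rintro ⟨h1, h2⟩; exact ⟨(h e (Or.inr h2)).2 h1, h2⟩
  have h2 : {e | e ∈ B ∧ D.src e = v} = {e | e ∈ B' ∧ D.src e = v} := by
    ext e
    simp only [Set.mem_ofPred_eq]
    constructor
    · rintro ⟨h1, h2⟩; exact ⟨(h e (Or.inl h2)).1 h1, h2⟩
    · rintro ⟨h1, h2⟩; exact ⟨(h e (Or.inl h2)).2 h1, h2⟩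
  rw [h1, h2]

/-- A locally finite union of pairwise disjoint balanced sets is balanced. -/
theorem Bal.sUnion {FF : Set (Set E)} (hd : FF.PairwiseDisjoint id) (hb : ∀ C ∈ FF, Bal D C)
    (hl : LocFin D (⋃₀ FF)) : Bal D (⋃₀ FF) := by
  classical
  refine ⟨hl, fun v => ?_⟩
  -- the members which touch `v`
  have hfin : {C | C ∈ FF ∧ ∃ e ∈ C, D.src e = v ∨ D.tgt e = v}.Finite := by
    refine Set.Finite.of_finite_image (f := fun C =>
      {e | e ∈ C ∧ (D.src e = v ∨ D.tgt e = v)}) ?_ ?_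
    · refine ((hl v).finite_subsets).subset ?_
      rintro _ ⟨C, ⟨hC, -⟩, rfl⟩
      exact fun e he => ⟨⟨C, hC, he.1⟩, he.2⟩
    · rintro C ⟨hC, e, he, hev⟩ C' ⟨hC', -⟩ h
      have h1 : e ∈ {e | e ∈ C' ∧ (D.src e = v ∨ D.tgt e = v)} := by
        have h2 : {e | e ∈ C ∧ (D.src e = v ∨ D.tgt e = v)} =
          {e | e ∈ C' ∧ (D.src e = v ∨ D.tgt e = v)} := h
        rw [← h2]
        exact ⟨he, hev⟩
      by_contra hne
      exact Set.disjoint_left.1 (hd hC hC' hne) he h1.1
  have h1 := (Bal.biUnion (D := D) (C := id) hfin.toFinset (by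
    intro C hC C' hC' hne
    exact hd ((hfin.mem_toFinset.1 hC).1) ((hfin.mem_toFinset.1 hC').1) hne)
    (fun C hC => hb C ((hfin.mem_toFinset.1 hC).1))).2 v
  rw [← h1]
  apply imb_congr
  intro e hev
  simp only [Set.mem_sUnion, Set.Finite.mem_toFinset, Set.mem_ofPred_eq, id, Set.mem_iUnion,
    exists_prop]
  constructor
  · rintro ⟨C, hC, he⟩
    exact ⟨C, ⟨hC, e, he, hev⟩, he⟩
  · rintro ⟨C, ⟨hC, -⟩, he⟩
    exact ⟨C, hC, he⟩

/-- The imbalance in the flipped digraph. -/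
theorem imb_flip {B S : Set E} (hB : LocFin D B) (v : V) :
    imb (D.flip S) B v = imb D (B \ S) v - imb D (B ∩ S) v := by
  have hB' : LocFin (D.flip S) B := locFin_flip.2 hB
  have h0 : imb (D.flip S) B v = imb (D.flip S) (B \ S) v + imb (D.flip S) (B ∩ S) v := by
    rw [← imb_union (hB'.mono Set.sdiff_subset) (hB'.mono Set.inter_subset_left)
      Set.disjoint_sdiff_inter, Set.sdiff_union_inter]
  rw [h0]
  have h1 : imb (D.flip S) (B \ S) v = imb D (B \ S) v := by
    unfold imb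
    have e1 : {e | e ∈ B \ S ∧ (D.flip S).tgt e = v} = {e | e ∈ B \ S ∧ D.tgt e = v} := by
      ext e
      simp only [Set.mem_ofPred_eq, and_congr_right_iff]
      intro he; rw [flip_tgt_of_notMem he.2]
    have e2 : {e | e ∈ B \ S ∧ (D.flip S).src e = v} = {e | e ∈ B \ S ∧ D.src e = v} := by
      ext e
      simp only [Set.mem_ofPred_eq, and_congr_right_iff]
      intro he; rw [flip_src_of_notMem he.2]
    rw [e1, e2]
  have h2 : imb (D.flip S) (B ∩ S) v = - imb D (B ∩ S) v := by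
    unfold imb
    have e1 : {e | e ∈ B ∩ S ∧ (D.flip S).tgt e = v} = {e | e ∈ B ∩ S ∧ D.src e = v} := by
      ext e
      simp only [Set.mem_ofPred_eq, and_congr_right_iff]
      intro he; rw [flip_tgt_of_mem he.2]
    have e2 : {e | e ∈ B ∩ S ∧ (D.flip S).src e = v} = {e | e ∈ B ∩ S ∧ D.tgt e = v} := by
      ext e
      simp only [Set.mem_ofPred_eq, and_congr_right_iff]
      intro he; rw [flip_src_of_mem he.2]
    rw [e1, e2]
    ring
  rw [h1, h2]
  ring

/-- The difference of two balanced sets is balanced in the intermediate orientation. -/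
theorem Bal.symmDiff_flip {A B : Set E} (hA : Bal D A) (hB : Bal D B) :
    Bal (D.flip A) (symmDiff A B) := by
  have hl : LocFin D (symmDiff A B) := (hA.1.union hB.1).mono (by
    intro e he
    rcases he with he | he
    · exact Or.inl he.1
    · exact Or.inr he.1)
  refine ⟨locFin_flip.2 hl, fun v => ?_⟩
  rw [imb_flip hl]
  have e1 : symmDiff A B \ A = B \ (A ∩ B) := by
    ext e; simp only [Set.mem_sdiff, Set.mem_symmDiff, Set.mem_inter_iff]; tauto
  have e2 : symmDiff A B ∩ A = A \ (A ∩ B) := by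
    ext e; simp only [Set.mem_sdiff, Set.mem_symmDiff, Set.mem_inter_iff]; tauto
  rw [e1, e2, imb_sdiff hB.1 Set.inter_subset_right, imb_sdiff hA.1 Set.inter_subset_left,
    hA.2, hB.2]
  ring

end Pool.Agent.Helper24.GR
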