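import Mathlib
import Pool.Agent.Helper24.GR.Defs
import Pool.Agent.Helper24.GR.Basic

set_option autoImplicit false

/-! Elementary calculus of `Reach`: pairwise disjoint generalized cycles, change of the edges
outside the set of edges which may be used. -/

namespace Pool.Agent.Helper24.GR

open Function Order

universe u v

variable {V : Type u} {E : Type v}

theorem dj_xor_odd_zero {p : Prop} {n : ℕ} (h : n = 0) : Xor p (Odd n) ↔ p := by
  subst h
  simp [Xor]

theorem dj_xor_odd_one {p : Prop} {n : ℕ} (h : n = 1) : Xor p (Odd n) ↔ ¬ p := by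
  subst h
  simp [Xor]

/-- GR-1a. Pairwise disjoint generalized cycles can be reversed one after the other. -/
theorem reach_disjoint (D : Dig V E) (Φ : Set E) (FF : Set (Set E))
    (hd : FF.PairwiseDisjoint id) (hc : ∀ C ∈ FF, GenCyc (D.flip Φ) C) :
    Reach D (⋃₀ FF) Φ (symmDiff Φ (⋃₀ FF)) := by
  obtain ⟨hlin, hwf⟩ := exists_wellFoundedLT (α := FF)
  have huniq : ∀ (i j : FF) (e : E), e ∈ (i : Set E) → e ∈ (j : Set E) → i = j := by
    intro i j e hi hj
    by_contra hne
    have hne' : (i : Set E) ≠ j := fun h => hne (Subtype.ext h)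
    exact Set.disjoint_left.1 (hd i.2 j.2 hne') hi hj
  refine ⟨FF, hlin, hwf, fun i => (i : Set E), ?_, ?_, ?_, ?_⟩
  · intro e
    refine Set.Subsingleton.finite ?_
    intro i hi j hj
    exact huniq i j e hi hj
  · intro i e he
    exact ⟨i, i.2, he⟩
  · intro i
    refine (hc i i.2).flip_congr fun e he => ?_
    have h0 : ∀ s : Set FF, (∀ j ∈ s, j ≠ i ∧ e ∈ (j : Set E)) → s.ncard = 0 := by
      intro s hs
      have : s = ∅ := by
        rw [Set.eq_empty_iff_forall_notMem]
        intro j hj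
        exact (hs j hj).1 (huniq j i e (hs j hj).2 he)
      rw [this, Set.ncard_empty]
    exact (dj_xor_odd_zero (h0 _ fun j hj =>
      ⟨@ne_of_lt _ (@PartialOrder.toPreorder _ hlin.toPartialOrder) _ _ hj.1, hj.2⟩)).symm
  · ext e
    show e ∈ symmDiff Φ (⋃₀ FF) ↔ Xor (e ∈ Φ) (Odd {j : FF | e ∈ (j : Set E)}.ncard)
    by_cases he : e ∈ ⋃₀ FF
    · obtain ⟨C, hC, heC⟩ := he
      have h1 : {j : FF | e ∈ (j : Set E)} = {⟨C, hC⟩} := by
        ext j
        rw [Set.mem_singleton_iff]
        exact ⟨fun hj => huniq j ⟨C, hC⟩ e hj heC, fun hj => by rw [hj]; exact heC⟩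
      rw [dj_xor_odd_one (by rw [h1, Set.ncard_singleton]), Set.mem_symmDiff]
      have he' : e ∈ ⋃₀ FF := ⟨C, hC, heC⟩
      tauto
    · have h0 : {j : FF | e ∈ (j : Set E)} = ∅ := by
        rw [Set.eq_empty_iff_forall_notMem]
        intro j hj
        exact he ⟨j, j.2, hj⟩
      rw [dj_xor_odd_zero (by rw [h0, Set.ncard_empty]), Set.mem_symmDiff]
      tauto

/-- GR-1c. The edges outside `S` do not matter. -/
theorem Reach.congr {D : Dig V E} {S Φ Ψ : Set E} (h : Reach D S Φ Ψ) (Φ' : Set E)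
    (hΦ : Φ ∩ S = Φ' ∩ S) : Reach D S Φ' ((Φ' \ S) ∪ (Ψ ∩ S)) := by
  obtain ⟨ι, hlin, hwf, C, hfin, hCS, hgen, rfl⟩ := h
  have hmem : ∀ e ∈ S, (e ∈ Φ ↔ e ∈ Φ') := by
    intro e he
    constructor
    · intro h1
      exact (hΦ.subset ⟨h1, he⟩).1
    · intro h1
      exact (hΦ.superset ⟨h1, he⟩).1
  refine ⟨ι, hlin, hwf, C, hfin, hCS, ?_, ?_⟩
  · intro i
    refine (hgen i).flip_congr fun e he => ?_
    have h1 := hmem e (hCS i he)
    show Xor (e ∈ Φ) _ ↔ Xor (e ∈ Φ') _
    rw [h1]
  · ext e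
    by_cases he : e ∈ S
    · have h1 := hmem e he
      constructor
      · rintro (h2 | h2)
        · exact absurd he h2.2
        · have h3 : Xor (e ∈ Φ) (Odd {j | e ∈ C j}.ncard) := h2.1
          rw [h1] at h3
          exact h3
      · intro h2
        right
        refine ⟨?_, he⟩
        show Xor (e ∈ Φ) (Odd {j | e ∈ C j}.ncard)
        rw [h1]
        exact h2
    · have h0 : {j | e ∈ C j} = ∅ := by
        rw [Set.eq_empty_iff_forall_notMem]
        intro j hj
        exact he (hCS j hj)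
      have h3 : e ∈ final Φ' C ↔ e ∈ Φ' := by
        show Xor (e ∈ Φ') (Odd {j | e ∈ C j}.ncard) ↔ e ∈ Φ'
        rw [dj_xor_odd_zero (by rw [h0, Set.ncard_empty])]
      rw [h3]
      constructor
      · rintro (h2 | h2)
        · exact h2.1
        · exact absurd h2.2 he
      · intro h2
        exact Or.inl ⟨h2, he⟩

end Pool.Agent.Helper24.GR
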