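import Mathlib
import Pool.Agent.Helper24.GR.Defs

set_option autoImplicit false

namespace Pool.Agent.Helper24.GR

universe u v

variable {V : Type u} {E : Type v}

/-- The property (P) for the subfamily `J`. -/
def PP (D : Dig V E) {ι : Type v} (C : ι → Set E) (Ω : Set E) (J : Set ι) : Prop :=
  ∀ T : Finset E, (T : Set E) ⊆ ⋃ i ∈ J, C i →
    ∃ F : Finset ι, (F : Set ι) ⊆ J ∧ ∃ Δ ⊆ ⋃ i ∈ F, C i, Bal D Δ ∧ ∀ e ∈ T, (e ∈ Δ ↔ e ∈ Ω)

/-- `F` carries a set of edges with imbalance `b`. -/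
def IsWit (D : Dig V E) {ι : Type v} (C : ι → Set E) (b : V → ℤ) (F : Finset ι) : Prop :=
  ∃ Δ ⊆ ⋃ i ∈ F, C i, ∀ v, imb D Δ v = b v

end Pool.Agent.Helper24.GR
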