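import Mathlib
import Pool.Agent.Helper24.GR.Defs
import Pool.Agent.Helper24.GR.Basic
import Pool.Agent.Helper24.GR.PPDef
import Pool.Agent.Helper87.GR.Decomp

set_option autoImplicit false

namespace Pool.Agent.Helper24.GR

open Function Order

universe u v

variable {V : Type u} {E : Type v}

theorem rem_exists_cover {α β : Type*} (A : β → Set α) (J : Set β) (T : Set α) (hT : T.Finite)
    (h : T ⊆ ⋃ i ∈ J, A i) : ∃ s : Finset β, (s : Set β) ⊆ J ∧ T ⊆ ⋃ i ∈ s, A i := by
  classical
  have h1 : ∀ e : T, ∃ i ∈ J, e.1 ∈ A i := fun e => by simpa using h e.2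
  choose f hf1 hf2 using h1
  have := hT.fintype
  refine ⟨Finset.univ.image f, ?_, ?_⟩
  · intro i hi
    simp only [Finset.coe_image, Finset.coe_univ, Set.image_univ, Set.mem_range] at hi
    obtain ⟨e, rfl⟩ := hi
    exact hf1 e
  · intro e he
    simp only [Finset.mem_image, Finset.mem_univ, true_and, Set.mem_iUnion, exists_prop]
    exact ⟨f ⟨e, he⟩, ⟨⟨e, he⟩, rfl⟩, hf2 ⟨e, he⟩⟩

/-- Some member of a large pairwise disjoint family avoids a small set. -/
theorem rem_exists_disjoint {ι : Type v} (GG : Set (Finset ι)) (hGG : GG.PairwiseDisjoint id)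
    (X : Set ι) (h : Cardinal.mk X < Cardinal.mk GG) : ∃ F ∈ GG, ∀ i ∈ F, i ∉ X := by
  classical
  by_contra hcon
  push Not at hcon
  choose f hf1 hf2 using hcon
  have hinj : Injective (fun F : GG => (⟨f F.1 F.2, hf2 F.1 F.2⟩ : X)) := by
    intro F F' hFF
    have h1 : f F.1 F.2 = f F'.1 F'.2 := congrArg Subtype.val hFF
    by_contra hne
    have h2 : F.1 ≠ F'.1 := fun h => hne (Subtype.ext h)
    have h3 : Disjoint F.1 F'.1 := hGG F.2 F'.2 h2
    exact Finset.disjoint_left.1 h3 (hf1 F.1 F.2) (h1 ▸ hf1 F'.1 F'.2)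
  exact absurd (Cardinal.mk_le_of_injective hinj) (not_le_of_gt h)

/-- GR-4b. The removal lemma. -/
theorem PP.removal (D : Dig V E) {ι : Type v} (C : ι → Set E) (hd : Pairwise (Disjoint on C))
    (hb : ∀ i, Bal D (C i)) (Ω : Set E) (J H : Set ι) (_hHJ : H ⊆ J)
    (hP : PP D C Ω J) (lam : Cardinal.{v}) (hlam : Cardinal.aleph0 ≤ lam)
    (hH : Cardinal.mk H ≤ lam)
    (hG : ∀ b : V → ℤ, b ≠ 0 → (support b).Finite →
      (∀ v ∈ support b, ∃ i ∈ H, ∃ e ∈ C i, D.src e = v ∨ D.tgt e = v) →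
      (∀ F : Finset ι, (F : Set ι) ⊆ J → IsWit D C b F → ∃ i ∈ F, i ∈ H) ∨
      ∃ GG : Set (Finset ι), GG.PairwiseDisjoint id ∧
        (∀ F ∈ GG, (F : Set ι) ⊆ J ∧ IsWit D C b F) ∧ lam < Cardinal.mk GG) :
    PP D C Ω (J \ H) := by
  classical
  intro T hT
  have hTJ : (T : Set E) ⊆ ⋃ i ∈ J, C i :=
    hT.trans (Set.biUnion_subset_biUnion_left Set.sdiff_subset)
  obtain ⟨FT, hFT, hTFT⟩ := rem_exists_cover C (J \ H) T T.finite_toSet hT
  obtain ⟨F, hFJ, Δ, hΔ, hΔb, hΔT⟩ := hP T hTJ
  have memC : ∀ {e : E} {i j : ι}, e ∈ C i → e ∈ C j → i = j := by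
    intro e i j hi hj
    by_contra hne
    exact Set.disjoint_left.1 (hd hne) hi hj
  -- the two parts
  let FN : Finset ι := F.filter (· ∉ H)
  let FH : Finset ι := F.filter (· ∈ H)
  let DN : Set E := Δ ∩ ⋃ i ∈ FN, C i
  let DH : Set E := Δ ∩ ⋃ i ∈ FH, C i
  have hDNl : LocFin D DN := hΔb.1.mono Set.inter_subset_left
  have hDHl : LocFin D DH := hΔb.1.mono Set.inter_subset_left
  have hdis : Disjoint DN DH := by
    rw [Set.disjoint_left]
    rintro e ⟨-, h1⟩ ⟨-, h2⟩
    simp only [Set.mem_iUnion, exists_prop, FN, FH, Finset.mem_filter] at h1 h2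
    obtain ⟨i, ⟨-, hi⟩, hei⟩ := h1
    obtain ⟨j, ⟨-, hj⟩, hej⟩ := h2
    exact hi (memC hei hej ▸ hj)
  have hun : DN ∪ DH = Δ := by
    ext e
    constructor
    · rintro (h | h)
      · exact h.1
      · exact h.1
    · intro h
      have h1 := hΔ h
      simp only [Set.mem_iUnion, exists_prop] at h1
      obtain ⟨i, hi, hei⟩ := h1
      by_cases hiH : i ∈ H
      · exact Or.inr ⟨h, by
          simp only [Set.mem_iUnion, exists_prop, FH, Finset.mem_filter]
          exact ⟨i, ⟨hi, hiH⟩, hei⟩⟩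
      · exact Or.inl ⟨h, by
          simp only [Set.mem_iUnion, exists_prop, FN, Finset.mem_filter]
          exact ⟨i, ⟨hi, hiH⟩, hei⟩⟩
  have himb : ∀ v, imb D DN v = - imb D DH v := by
    intro v
    have h1 := imb_union hDNl hDHl hdis v
    rw [hun, hΔb.2] at h1
    linarith
  -- a piece of `DN`
  obtain ⟨B', hB'DN, hTB', hBfin, hBsupp⟩ := piece D DN hDNl (T.filter (· ∈ DN)) (by
    intro e he
    simp only [Finset.coe_filter, Set.mem_ofPred_eq] at he
    exact he.2)
  have hB'U : B' ⊆ ⋃ i ∈ FN, C i := hB'DN.trans Set.inter_subset_right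
  have hB'l : LocFin D B' := hDNl.mono hB'DN
  have hTiff : ∀ e ∈ T, (e ∈ B' ↔ e ∈ Ω) := by
    intro e he
    rw [← hΔT e he]
    constructor
    · intro h
      exact (hB'DN h).1
    · intro h
      apply hTB'
      simp only [Finset.coe_filter, Set.mem_ofPred_eq]
      refine ⟨he, h, ?_⟩
      have h1 := hT he
      have h2 := hΔ h
      simp only [Set.mem_iUnion, exists_prop] at h1 h2
      obtain ⟨i, hi, hei⟩ := h1
      obtain ⟨j, hj, hej⟩ := h2
      obtain rfl := memC hei hej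
      simp only [Set.mem_iUnion, exists_prop, FN, Finset.mem_filter]
      exact ⟨i, ⟨hj, hi.2⟩, hei⟩
  have hFNJ : (FN : Set ι) ⊆ J \ H := by
    intro i hi
    simp only [FN, Finset.coe_filter, Set.mem_ofPred_eq] at hi
    exact ⟨hFJ hi.1, hi.2⟩
  by_cases hb0 : imb D B' = 0
  · exact ⟨FN, hFNJ, B', hB'U, ⟨hB'l, fun v => congrFun hb0 v⟩, hTiff⟩
  -- the correction
  have htouch : ∀ v ∈ support (imb D B'), ∃ i ∈ H, ∃ e ∈ C i, D.src e = v ∨ D.tgt e = v := by
    intro v hv
    have h1 : imb D DN v ≠ 0 := hBsupp hv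
    rw [himb, neg_ne_zero] at h1
    by_contra hcon
    push Not at hcon
    apply h1
    have h2 : imb D DH v = imb D ∅ v := by
      apply imb_congr
      intro e hev
      simp only [Set.mem_empty_iff_false, iff_false]
      rintro ⟨-, h3⟩
      simp only [Set.mem_iUnion, exists_prop, FH, Finset.mem_filter] at h3
      obtain ⟨i, ⟨-, hi⟩, hei⟩ := h3
      rcases hev with h4 | h4
      · exact (hcon i hi e hei).1 h4
      · exact (hcon i hi e hei).2 h4
    rw [h2, imb_empty]
  rcases hG (imb D B') hb0 hBfin htouch with h1 | ⟨GG, hGG1, hGG2, hGG3⟩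
  · obtain ⟨i, hi, hiH⟩ := h1 FN (hFNJ.trans Set.sdiff_subset) ⟨B', hB'U, fun v => rfl⟩
    exact absurd hiH (hFNJ hi).2
  · -- a member which avoids everything
    have hsmall : Cardinal.mk (H ∪ (F ∪ FT : Finset ι) : Set ι) < Cardinal.mk GG := by
      refine lt_of_le_of_lt ?_ hGG3
      refine (Cardinal.mk_union_le _ _).trans ?_
      refine (add_le_add hH (Cardinal.lt_aleph0_of_finite _).le).trans ?_
      rw [Cardinal.add_eq_max hlam]
      exact max_le le_rfl hlam
    obtain ⟨F1, hF1, hF1d⟩ := rem_exists_disjoint GG hGG1 _ hsmall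
    obtain ⟨hF1J, D1, hD1, hD1b⟩ := hGG2 F1 hF1
    have hF1' : ∀ i ∈ F1, i ∉ H ∧ i ∉ F ∧ i ∉ FT := by
      intro i hi
      have := hF1d i hi
      simp only [Set.mem_union, Finset.mem_coe, Finset.mem_union, not_or] at this
      exact ⟨this.1, this.2.1, this.2.2⟩
    have hUb : Bal D (⋃ i ∈ F1, C i) :=
      Bal.biUnion F1 (fun i _ j _ hij => hd hij) fun i _ => hb i
    have hXimb : ∀ v, imb D ((⋃ i ∈ F1, C i) \ D1) v = - imb D B' v := by
      intro v
      rw [imb_sdiff hUb.1 hD1, hUb.2, hD1b]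
      ring
    have hXl : LocFin D ((⋃ i ∈ F1, C i) \ D1) := hUb.1.mono Set.sdiff_subset
    have hXd : Disjoint B' ((⋃ i ∈ F1, C i) \ D1) := by
      rw [Set.disjoint_left]
      rintro e h1 ⟨h2, -⟩
      have h3 := hB'U h1
      simp only [Set.mem_iUnion, exists_prop, FN, Finset.mem_filter] at h2 h3
      obtain ⟨i, hi, hei⟩ := h2
      obtain ⟨j, ⟨hj, -⟩, hej⟩ := h3
      obtain rfl := memC hei hej
      exact (hF1' i hi).2.1 hj
    refine ⟨FN ∪ F1, ?_, B' ∪ ((⋃ i ∈ F1, C i) \ D1), ?_, ⟨hB'l.union hXl, ?_⟩, ?_⟩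
    · intro i hi
      simp only [Finset.coe_union, Set.mem_union, Finset.mem_coe] at hi
      rcases hi with hi | hi
      · exact hFNJ hi
      · exact ⟨hF1J hi, (hF1' i hi).1⟩
    · apply Set.union_subset
      · refine hB'U.trans ?_
        exact Set.biUnion_subset_biUnion_left (by
          intro i hi; exact Finset.mem_union_left _ hi)
      · refine Set.sdiff_subset.trans ?_
        exact Set.biUnion_subset_biUnion_left (by
          intro i hi; exact Finset.mem_union_right _ hi)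
    · intro v
      rw [imb_union hB'l hXl hXd, hXimb]
      ring
    · intro e he
      rw [← hTiff e he]
      constructor
      · rintro (h | h)
        · exact h
        · exfalso
          have h2 := h.1
          have h3 := hTFT he
          simp only [Set.mem_iUnion, exists_prop] at h2 h3
          obtain ⟨i, hi, hei⟩ := h2
          obtain ⟨j, hj, hej⟩ := h3
          obtain rfl := memC hei hej
          exact (hF1' i hi).2.2 hj
      · intro h
        exact Or.inl h

end Pool.Agent.Helper24.GR
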