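import Mathlib
import Pool.Agent.Helper24.GR.Defs
import Pool.Agent.Helper24.GR.Basic
import Pool.Agent.Helper24.GR.PPDef
import Pool.Agent.Helper24.GR.Disjoint
import Pool.Agent.Helper24.GR.Removal
import Pool.Agent.Helper87.GR.Comp
import Pool.Agent.Helper68.GR.Countable
import Pool.Agent.Helper61.GR.Filtration

set_option autoImplicit false

namespace Pool.Agent.Helper24.GR

open Function Order Cardinal

universe u v w

variable {V : Type u} {E : Type v}

/-! ### Cardinality -/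

theorem gen_mk_iUnion_le {α : Type v} {κ : Type w} [Countable κ] (A : κ → Set α)
    (c : Cardinal.{v}) (hc : ℵ₀ ≤ c) (h : ∀ k, #(A k) ≤ c) : #(⋃ k, A k) ≤ c := by
  rcases isEmpty_or_nonempty κ with hκ | hκ
  · simp
  · obtain ⟨f, hf⟩ := exists_surjective_nat κ
    have h1 : (⋃ k, A k) = ⋃ n : ULift.{v} ℕ, A (f n.down) := by
      apply le_antisymm
      · apply Set.iUnion_subset
        intro k
        obtain ⟨n, rfl⟩ := hf k
        exact Set.subset_iUnion (fun n : ULift.{v} ℕ => A (f n.down)) ⟨n⟩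
      · exact Set.iUnion_subset fun n => Set.subset_iUnion A _
    rw [h1]
    refine (mk_iUnion_le _).trans ?_
    refine (mul_le_mul' (b := ℵ₀) (d := c) (by simp) (ciSup_le' fun n => h _)).trans ?_
    rw [mul_eq_max_of_aleph0_le_left le_rfl (by
      intro h0
      rw [h0] at hc
      exact absurd hc (not_le_of_gt aleph0_pos))]
    exact max_le hc le_rfl

theorem gen_mk_biUnion_le {α κ : Type v} (A : κ → Set α) (s : Set κ)
    (c : Cardinal.{v}) (hc : ℵ₀ ≤ c) (hs : #s ≤ c) (h : ∀ k, #(A k) ≤ c) :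
    #(⋃ k ∈ s, A k) ≤ c := by
  refine (mk_biUnion_le _ _).trans ?_
  refine (mul_le_mul' hs (ciSup_le' fun n => h _)).trans ?_
  rw [mul_eq_self hc]

/-- A rank function of minimal length. -/
theorem gen_exists_rank (α : Type v) :
    ∃ ρ : α → Ordinal.{v}, Injective ρ ∧ ∀ a, ρ a < (#α).ord := by
  obtain ⟨r, wo, hr⟩ := Cardinal.exists_ord_eq α
  refine ⟨Ordinal.typein r, Ordinal.typein_injective r, fun a => ?_⟩
  rw [hr]
  exact Ordinal.typein_lt_type r a

theorem gen_mk_rank_le {α : Type v} (ρ : α → Ordinal.{v}) (hρ : Injective ρ) (o : Ordinal.{v}) :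
    #{a | ρ a < o} ≤ o.card := by
  have h1 : Injective (fun a : {a | ρ a < o} => (⟨ρ a.1, a.2⟩ : Set.Iio o)) := by
    intro a b hab
    exact Subtype.ext (hρ (congrArg Subtype.val hab))
  have h2 := Cardinal.lift_mk_le_lift_mk_of_injective h1
  rw [Cardinal.mk_Iio_ordinal, Cardinal.lift_lift] at h2
  exact Cardinal.lift_le.1 h2

theorem gen_countable_finsupp (W : Set V) (hW : W.Countable) :
    {b : V → ℤ | (support b).Finite ∧ support b ⊆ W}.Countable := by
  classical
  have := hW.to_subtype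
  have : Countable (W →₀ ℤ) := inferInstance
  refine (Set.countable_range fun (g : W →₀ ℤ) => fun v : V =>
    if h : v ∈ W then g ⟨v, h⟩ else 0).mono ?_
  rintro b ⟨hb, hbW⟩
  refine ⟨Finsupp.ofSupportFinite (fun w : W => b w.1) ?_, ?_⟩
  · refine Set.Finite.of_finite_image (f := Subtype.val) (hb.subset ?_) Subtype.val_injective.injOn
    rintro _ ⟨w, hw, rfl⟩
    exact hw
  · ext v
    by_cases h : v ∈ W
    · simp only [h, dite_true]
      rfl
    · simp only [h, dite_false]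
      by_contra h0
      exact h (hbW fun h1 => h0 h1.symm)

theorem gen_countable_finset {α : Type*} (S : Set α) (hS : S.Countable) :
    {T : Finset α | (T : Set α) ⊆ S}.Countable := by
  have h1 := Set.countable_ofPred_finite_subset hS
  refine Set.MapsTo.countable_of_injOn (f := fun T : Finset α => (T : Set α)) ?_ ?_ h1
  · intro T hT
    exact ⟨T.finite_toSet, hT⟩
  · intro T _ T' _ h
    exact Finset.coe_injective h


/-! ### The closing functions -/

/-- The vertices touched by the members with indices in `s`. -/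
def touched (D : Dig V E) {ι : Type v} (C : ι → Set E) (s : Set ι) : Set V :=
  {v | ∃ i ∈ s, ∃ e ∈ C i, D.src e = v ∨ D.tgt e = v}

theorem touched_countable (D : Dig V E) {ι : Type v} (C : ι → Set E)
    (hc : ∀ i, (C i).Countable) (s : Finset ι) : (touched D C s).Countable := by
  have h1 : touched D C s ⊆ (D.src '' ⋃ i ∈ s, C i) ∪ (D.tgt '' ⋃ i ∈ s, C i) := by
    rintro v ⟨i, hi, e, he, hv⟩
    have hmem : e ∈ ⋃ i ∈ s, C i := Set.mem_biUnion (by exact_mod_cast hi) he
    rcases hv with hv | hv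
    · exact Or.inl ⟨e, hmem, hv⟩
    · exact Or.inr ⟨e, hmem, hv⟩
  have h2 : (⋃ i ∈ s, C i).Countable := s.countable_toSet.biUnion fun i _ => hc i
  exact ((h2.image _).union (h2.image _)).mono h1

theorem gen_exists_GG (D : Dig V E) {ι : Type v} (C : ι → Set E) (J : Set ι) (b : V → ℤ) :
    ∃ GG : Set (Finset ι), Maximal (fun GG : Set (Finset ι) =>
      GG.PairwiseDisjoint id ∧ ∀ F ∈ GG, (F : Set ι) ⊆ J ∧ IsWit D C b F) GG := by
  apply zorn_subset
  intro c hc1 hc2
  refine ⟨⋃₀ c, ⟨?_, ?_⟩, fun s hs => Set.subset_sUnion_of_mem hs⟩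
  · rintro A ⟨s, hs, hA⟩ B ⟨t, ht, hB⟩ hne
    rcases hc2.total hs ht with h | h
    · exact (hc1 ht).1 (h hA) hB hne
    · exact (hc1 hs).1 hA (h hB) hne
  · rintro A ⟨s, hs, hA⟩
    exact (hc1 hs).2 A hA

/-- A maximal family of pairwise disjoint witnesses for `b`. -/
noncomputable def GGf (D : Dig V E) {ι : Type v} (C : ι → Set E) (J : Set ι) (b : V → ℤ) :
    Set (Finset ι) := (gen_exists_GG D C J b).choose

theorem GGf_spec (D : Dig V E) {ι : Type v} (C : ι → Set E) (J : Set ι) (b : V → ℤ) :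
    Maximal (fun GG : Set (Finset ι) =>
      GG.PairwiseDisjoint id ∧ ∀ F ∈ GG, (F : Set ι) ⊆ J ∧ IsWit D C b F) (GGf D C J b) :=
  (gen_exists_GG D C J b).choose_spec

/-- A rank function on it. -/
noncomputable def rkf (D : Dig V E) {ι : Type v} (C : ι → Set E) (J : Set ι) (b : V → ℤ) :
    GGf D C J b → Ordinal.{v} := (gen_exists_rank (GGf D C J b)).choose

theorem rkf_inj (D : Dig V E) {ι : Type v} (C : ι → Set E) (J : Set ι) (b : V → ℤ) :
    Injective (rkf D C J b) := (gen_exists_rank (GGf D C J b)).choose_spec.1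

theorem rkf_lt (D : Dig V E) {ι : Type v} (C : ι → Set E) (J : Set ι) (b : V → ℤ)
    (F : GGf D C J b) : rkf D C J b F < (#(GGf D C J b)).ord :=
  (gen_exists_rank (GGf D C J b)).choose_spec.2 F

/-- The first closing function. -/
def Psi (D : Dig V E) {ι : Type v} (C : ι → Set E) (J : Set ι) (s : Finset ι)
    (β : Ordinal.{v}) : Set ι :=
  ⋃ b : {b : V → ℤ | (support b).Finite ∧ support b ⊆ touched D C s},
    ⋃ F ∈ {F : GGf D C J b.1 | rkf D C J b.1 F < Ordinal.omega0 + β + 1}, (F.1 : Set ι)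

theorem gen_card_add (β : Ordinal.{v}) :
    (Ordinal.omega0 + β + 1).card ≤ max ℵ₀ β.card := by
  rw [Ordinal.card_add, Ordinal.card_add, Ordinal.card_omega0, Ordinal.card_one,
    Cardinal.add_eq_max le_rfl]
  rw [Cardinal.add_eq_max (le_max_left _ _)]
  exact max_le le_rfl (Cardinal.one_le_aleph0.trans (le_max_left _ _))

theorem mk_Psi_le (D : Dig V E) {ι : Type v} (C : ι → Set E) (hc : ∀ i, (C i).Countable)
    (J : Set ι) (s : Finset ι) (β : Ordinal.{v}) : #(Psi D C J s β) ≤ max ℵ₀ β.card := by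
  have h1 : {b : V → ℤ | (support b).Finite ∧ support b ⊆ touched D C s}.Countable :=
    gen_countable_finsupp _ (touched_countable D C hc s)
  have := h1.to_subtype
  refine gen_mk_iUnion_le _ _ (le_max_left _ _) fun b => ?_
  refine gen_mk_biUnion_le _ _ _ (le_max_left _ _) ?_ ?_
  · exact (gen_mk_rank_le _ (rkf_inj D C J b.1) _).trans (gen_card_add β)
  · intro F
    exact (Cardinal.lt_aleph0_of_finite _).le.trans (le_max_left _ _)

theorem Psi_subset (D : Dig V E) {ι : Type v} (C : ι → Set E) (J : Set ι) (s : Finset ι)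
    (β : Ordinal.{v}) : Psi D C J s β ⊆ J := by
  unfold Psi
  refine Set.iUnion_subset fun b => Set.iUnion₂_subset fun F _ => ?_
  exact ((GGf_spec D C J b.1).1.2 F.1 F.2).1

open Classical in
/-- The chosen witness for `T` in `J` minus `H`. -/
noncomputable def FW (D : Dig V E) {ι : Type v} (C : ι → Set E) (Ω : Set E) (J : Set ι)
    (H : Set ι) (T : Finset E) : Finset ι :=
  if h : PP D C Ω (J \ H) ∧ (T : Set E) ⊆ ⋃ i ∈ J \ H, C i then (h.1 T h.2).choose else ∅

theorem FW_subset (D : Dig V E) {ι : Type v} (C : ι → Set E) (Ω : Set E) (J : Set ι)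
    (H : Set ι) (T : Finset E) : (FW D C Ω J H T : Set ι) ⊆ J \ H := by
  unfold FW
  split_ifs with h
  · exact (h.1 T h.2).choose_spec.1
  · simp

theorem FW_spec (D : Dig V E) {ι : Type v} (C : ι → Set E) (Ω : Set E) (J : Set ι)
    (H : Set ι) (T : Finset E) (h1 : PP D C Ω (J \ H)) (h2 : (T : Set E) ⊆ ⋃ i ∈ J \ H, C i) :
    ∃ Δ ⊆ ⋃ i ∈ FW D C Ω J H T, C i, Bal D Δ ∧ ∀ e ∈ T, (e ∈ Δ ↔ e ∈ Ω) := by
  unfold FW
  rw [dif_pos ⟨h1, h2⟩]
  exact (h1 T h2).choose_spec.2

/-- The second closing function. -/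
def Phi (D : Dig V E) {ι : Type v} (C : ι → Set E) (Ω : Set E) (J : Set ι) (H : Set ι)
    (s : Finset ι) : Set ι :=
  ⋃ T ∈ {T : Finset E | (T : Set E) ⊆ ⋃ i ∈ s, C i}, (FW D C Ω J H T : Set ι)

theorem Phi_countable (D : Dig V E) {ι : Type v} (C : ι → Set E) (hc : ∀ i, (C i).Countable)
    (Ω : Set E) (J : Set ι) (H : Set ι) (s : Finset ι) : (Phi D C Ω J H s).Countable := by
  refine Set.Countable.biUnion (gen_countable_finset _ ?_) fun T _ => Finset.countable_toSet _
  exact s.countable_toSet.biUnion fun i _ => hc i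

theorem Phi_subset (D : Dig V E) {ι : Type v} (C : ι → Set E)
    (Ω : Set E) (J : Set ι) (H : Set ι) (s : Finset ι) : Phi D C Ω J H s ⊆ J :=
  Set.iUnion₂_subset fun T _ => (FW_subset D C Ω J H T).trans Set.sdiff_subset

/-- A finite set covered by a family is covered by a finite subfamily. -/
theorem gen_exists_cover {α β : Type*} (A : β → Set α) (J : Set β) (T : Set α) (hT : T.Finite)
    (h : T ⊆ ⋃ i ∈ J, A i) : ∃ s : Finset β, (s : Set β) ⊆ J ∧ T ⊆ ⋃ i ∈ s, A i := by
  classical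
  have h1 : ∀ e : T, ∃ i ∈ J, e.1 ∈ A i := fun e => by simpa using h e.2
  choose f hf1 hf2 using h1
  have := hT.fintype
  refine ⟨Finset.univ.image f, ?_, ?_⟩
  · intro i hi
    simp only [Finset.coe_image, Finset.coe_univ, Set.image_univ, Set.mem_range] at hi
    obtain ⟨e, rfl⟩ := hi
    exact hf1 e
  · intro e he
    simp only [Finset.mem_image, Finset.mem_univ, true_and, Set.mem_iUnion, exists_prop]
    exact ⟨f ⟨e, he⟩, ⟨⟨e, he⟩, rfl⟩, hf2 ⟨e, he⟩⟩

theorem imb_subset_empty {D : Dig V E} {Δ : Set E} (h : Δ ⊆ ∅) (v : V) : imb D Δ v = 0 := by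
  rw [Set.subset_empty_iff.1 h, imb_empty]

/-- The first claim: `(P)` holds for the complements of the sets of the filtration. -/
theorem PP_sdiff (D : Dig V E) {ι : Type v} (C : ι → Set E)
    (hd : Pairwise (Disjoint on C)) (hb : ∀ i, Bal D (C i))
    (Ω : Set E) (J : Set ι) (hP : PP D C Ω J) (H : Set ι) (hHJ : H ⊆ J) (β : Ordinal.{v})
    (hβ : 0 < β) (hH : #H ≤ max ℵ₀ β.card)
    (hcl : ∀ s : Finset ι, (s : Set ι) ⊆ H → ∀ γ < β, Psi D C J s γ ⊆ H) :
    PP D C Ω (J \ H) := by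
  classical
  refine PP.removal D C hd hb Ω J H hHJ hP (max ℵ₀ β.card) (le_max_left _ _) hH ?_
  intro b hb0 hbfin hbH
  have hmax := GGf_spec D C J b
  by_cases hcard : #(GGf D C J b) ≤ max ℵ₀ β.card
  · left
    -- a finite subfamily touching the support
    have h1 : support b ⊆ ⋃ i ∈ H, {v | ∃ e ∈ C i, D.src e = v ∨ D.tgt e = v} := by
      intro v hv
      obtain ⟨i, hi, he⟩ := hbH v hv
      exact Set.mem_biUnion hi he
    obtain ⟨s, hsH, hs⟩ := gen_exists_cover _ _ _ hbfin h1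
    have hbs : support b ⊆ touched D C s := by
      intro v hv
      have := hs hv
      simp only [Set.mem_iUnion, exists_prop] at this
      obtain ⟨i, hi, he⟩ := this
      exact ⟨i, by exact_mod_cast hi, he⟩
    have hsub : ∀ F ∈ GGf D C J b, (F : Set ι) ⊆ H := by
      intro F hF
      have h2 : rkf D C J b ⟨F, hF⟩ < max Ordinal.omega0 β := by
        refine (rkf_lt D C J b ⟨F, hF⟩).trans_le ?_
        rw [Cardinal.ord_le]
        refine hcard.trans ?_
        apply max_le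
        · calc ℵ₀ = Ordinal.omega0.card := Ordinal.card_omega0.symm
            _ ≤ _ := Ordinal.card_le_card (le_max_left _ _)
        · exact Ordinal.card_le_card (le_max_right _ _)
      obtain ⟨γ, hγ, hlt⟩ : ∃ γ < β, rkf D C J b ⟨F, hF⟩ < Ordinal.omega0 + γ + 1 := by
        rcases lt_max_iff.1 h2 with h3 | h3
        · refine ⟨0, hβ, ?_⟩
          rw [add_zero]
          exact h3.trans (lt_add_one _)
        · refine ⟨_, h3, ?_⟩
          exact lt_of_le_of_lt le_add_self (lt_add_one _)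
      refine subset_trans ?_ (hcl s hsH γ hγ)
      intro i hi
      unfold Psi
      simp only [Set.mem_iUnion]
      exact ⟨⟨b, hbfin, hbs⟩, ⟨F, hF⟩, hlt, hi⟩
    intro F hFJ hFw
    by_contra hcon
    push Not at hcon
    have hins := hmax.2 (y := insert F (GGf D C J b)) ⟨?_, ?_⟩ (Set.subset_insert _ _)
    · have hFm : F ∈ GGf D C J b := hins (Set.mem_insert _ _)
      have hFe : F = ∅ := by
        rw [Finset.eq_empty_iff_forall_notMem]
        intro i hi
        exact hcon i hi (hsub F hFm hi)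
      obtain ⟨Δ, hΔ, hΔb⟩ := hFw
      apply hb0
      ext v
      rw [← hΔb v]
      apply imb_subset_empty
      refine hΔ.trans ?_
      simp [hFe]
    · apply hmax.1.1.insert
      intro A hA _
      change Disjoint F A
      rw [Finset.disjoint_left]
      intro i hi hiA
      exact hcon i hi (hsub A hA hiA)
    · rintro A (rfl | hA)
      · exact ⟨hFJ, hFw⟩
      · exact hmax.1.2 A hA
  · right
    exact ⟨GGf D C J b, hmax.1.1, hmax.1.2, not_le.1 hcard⟩

theorem Reach.mono {D : Dig V E} {S S' Φ Ψ : Set E} (h : Reach D S Φ Ψ) (h' : S ⊆ S') :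
    Reach D S' Φ Ψ := by
  obtain ⟨ι, lo, wf, C, h1, h2, h3, h4⟩ := h
  exact ⟨ι, lo, wf, C, h1, fun i => (h2 i).trans h', h3, h4⟩

/-- GR-4c. -/
theorem reach_general_aux (D : Dig V E) {ι : Type v} (C : ι → Set E)
    (hd : Pairwise (Disjoint on C)) (hc : ∀ i, (C i).Countable) (hb : ∀ i, Bal D (C i))
    (Ω : Set E) : ∀ (κ : Cardinal.{v}) (J : Set ι), #J = κ → PP D C Ω J →
    Reach D (⋃ i ∈ J, C i) ∅ (Ω ∩ ⋃ i ∈ J, C i) := by
  intro κ
  induction κ using WellFoundedLT.induction with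
  | ind κ ih =>
  intro J hJκ hP
  by_cases hJ : J.Countable
  · refine reach_countable D _ (hJ.biUnion fun i _ => hc i) _ Set.inter_subset_right ?_
    intro T hT
    obtain ⟨F, hF, Δ, hΔ, hΔb, hΔT⟩ := hP T hT
    refine ⟨Δ, hΔ.trans ?_, hΔb, fun e he => ?_⟩
    · exact Set.biUnion_subset_biUnion_left hF
    · rw [hΔT e he, Set.mem_inter_iff]
      exact ⟨fun h => ⟨h, hT he⟩, fun h => h.1⟩
  have hκ : ℵ₀ < κ := by
    rw [← hJκ, ← not_le, Cardinal.le_aleph0_iff_set_countable]
    exact hJ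
  obtain ⟨G, hG0, hGm, hGJ, hGl, hGκ, hGc, hGΨ, hGΦ⟩ := exists_filtration J hJ
    (Psi D C J) (Psi_subset D C J) (mk_Psi_le D C hc J)
    (Phi D C Ω J) (Phi_subset D C Ω J) (Phi_countable D C hc Ω J)
  have claim1 : ∀ β, PP D C Ω (J \ G β) := by
    intro β
    rcases eq_zero_or_pos β with rfl | hβ
    · rw [hG0]
      simpa using hP
    · exact PP_sdiff D C hd hb Ω J hP (G β) (hGJ β) β hβ (hGc β) (hGΨ β)
  have claim2 : ∀ β, PP D C Ω (G (succ β) \ G β) := by
    intro β T hT
    obtain ⟨s, hs, hTs⟩ := gen_exists_cover C (G (succ β) \ G β) T T.finite_toSet hT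
    have hTJ : (T : Set E) ⊆ ⋃ i ∈ J \ G β, C i :=
      hT.trans (Set.biUnion_subset_biUnion_left (Set.sdiff_subset_sdiff_left (hGJ _)))
    refine ⟨FW D C Ω J (G β) T, ?_, FW_spec D C Ω J (G β) T (claim1 β) hTJ⟩
    intro i hi
    refine ⟨?_, (FW_subset D C Ω J (G β) T hi).2⟩
    apply hGΦ β s (hs.trans Set.sdiff_subset)
    unfold Phi
    simp only [Set.mem_iUnion]
    exact ⟨T, hTs, hi⟩
  -- the first time at which an index appears
  have claim3 : ∀ β, ∀ i ∈ G β, ∃ γ < β, i ∈ G (succ γ) \ G γ := by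
    intro β
    induction β using Ordinal.limitRecOn with
    | zero => intro i hi; rw [hG0] at hi; exact absurd hi (Set.notMem_empty i)
    | add_one β ihβ =>
      intro i hi
      by_cases h : i ∈ G β
      · obtain ⟨γ, hγ, h1⟩ := ihβ i h
        exact ⟨γ, hγ.trans (lt_add_one β), h1⟩
      · exact ⟨β, lt_add_one β, hi, h⟩
    | limit l hl ihl =>
      intro i hi
      rw [hGl l hl] at hi
      simp only [Set.mem_iUnion, exists_prop] at hi
      obtain ⟨β, hβ, hi⟩ := hi
      obtain ⟨γ, hγ, h1⟩ := ihl β hβ i hi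
      exact ⟨γ, hγ.trans hβ, h1⟩
  have memU : ∀ {e : E} {i : ι}, e ∈ C i → ∀ H : Set ι, (e ∈ ⋃ j ∈ H, C j ↔ i ∈ H) := by
    intro e i he H
    simp only [Set.mem_iUnion, exists_prop]
    constructor
    · rintro ⟨j, hj, hej⟩
      by_contra h
      have hne : i ≠ j := by
        rintro rfl
        exact h hj
      exact Set.disjoint_left.1 (hd hne) he hej
    · intro h
      exact ⟨i, h, he⟩
  have exU : ∀ {e : E} {H : Set ι}, e ∈ ⋃ j ∈ H, C j → ∃ i ∈ H, e ∈ C i := by
    intro e H he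
    simpa using he
  -- the index type of the composition
  let K := (#J).ord.ToType
  let val : K → Ordinal.{v} := fun k => Ordinal.typein (α := K) (· < ·) k
  have hval_lt : ∀ k, val k < (#J).ord := fun k => Ordinal.typein_lt_self k
  have hval_mono : ∀ j k : K, val j < val k ↔ j < k := fun j k =>
    Ordinal.typein_lt_typein (r := ((· < ·) : K → K → Prop))
  have hval_surj : ∀ β < (#J).ord, ∃ k, val k = β := by
    intro β hβ
    have h1 : β < Ordinal.type ((· < ·) : K → K → Prop) := by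
      rw [Ordinal.type_toType]; exact hβ
    exact ⟨_, Ordinal.typein_enum _ h1⟩
  have hval_succ : ∀ k, succ (val k) < (#J).ord := fun k =>
    (Cardinal.isSuccLimit_ord (by rw [hJκ]; exact hκ.le)).succ_lt (hval_lt k)
  have hcomp := reach_comp D (κ := K) (fun k => ⋃ i ∈ G (succ (val k)) \ G (val k), C i)
    (fun k => Ω ∩ ⋃ i ∈ G (val k), C i) (fun k => Ω ∩ ⋃ i ∈ G (succ (val k)), C i)
    ∅ (Ω ∩ ⋃ i ∈ J, C i) ?_ ?_ ?_ ?_ ?_ ?_
  · refine hcomp.mono ?_
    refine Set.iUnion_subset fun k => ?_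
    exact Set.biUnion_subset_biUnion_left (Set.sdiff_subset.trans (hGJ _))
  · -- finiteness
    intro e
    apply Set.Subsingleton.finite
    intro j hj k hk
    obtain ⟨i, hi, hei⟩ := exU hj
    have hk' := (memU hei _).1 hk
    rcases lt_trichotomy j k with h | h | h
    · exact absurd (hGm (succ_le_of_lt ((hval_mono j k).2 h)) hi.1) hk'.2
    · exact h
    · exact absurd (hGm (succ_le_of_lt ((hval_mono k j).2 h)) hk'.1) hi.2
  · -- the blocks
    intro k
    have hlt : #((G (succ (val k)) \ G (val k) : Set ι)) < κ := by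
      refine (Cardinal.mk_le_mk_of_subset Set.sdiff_subset).trans_lt ?_
      refine (hGc _).trans_lt (max_lt hκ ?_)
      rw [← Cardinal.lt_ord, ← hJκ]
      exact hval_succ k
    have h1 := ih _ hlt _ rfl (claim2 (val k))
    have h2 := h1.congr (Ω ∩ ⋃ i ∈ G (val k), C i) (by
      rw [Set.empty_inter]
      symm
      rw [Set.eq_empty_iff_forall_notMem]
      rintro e ⟨⟨-, h3⟩, h4⟩
      obtain ⟨i, hi, hei⟩ := exU h3
      exact ((memU hei _).1 h4).2 hi)
    have h3 : ((Ω ∩ ⋃ i ∈ G (val k), C i) \ ⋃ i ∈ G (succ (val k)) \ G (val k), C i) ∪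
        ((Ω ∩ ⋃ i ∈ G (succ (val k)) \ G (val k), C i) ∩
          ⋃ i ∈ G (succ (val k)) \ G (val k), C i) = Ω ∩ ⋃ i ∈ G (succ (val k)), C i := by
      ext e
      constructor
      · rintro (⟨⟨h4, h5⟩, -⟩ | ⟨⟨h4, h5⟩, -⟩)
        · exact ⟨h4, Set.biUnion_subset_biUnion_left (hGm (le_succ _)) h5⟩
        · exact ⟨h4, Set.biUnion_subset_biUnion_left Set.sdiff_subset h5⟩
      · rintro ⟨h4, h5⟩
        obtain ⟨i, hi, hei⟩ := exU h5
        by_cases h6 : i ∈ G (val k)
        · exact Or.inl ⟨⟨h4, (memU hei _).2 h6⟩, fun h7 => ((memU hei _).1 h7).2 h6⟩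
        · exact Or.inr ⟨⟨h4, (memU hei _).2 ⟨hi, h6⟩⟩, (memU hei _).2 ⟨hi, h6⟩⟩
    rw [h3] at h2
    exact h2
  · -- `h0`
    intro k e hj
    simp only [Set.mem_empty_iff_false, iff_false]
    rintro ⟨-, h1⟩
    obtain ⟨i, hi, hei⟩ := exU h1
    obtain ⟨γ, hγ, h2⟩ := claim3 _ i hi
    obtain ⟨j, rfl⟩ := hval_surj γ (hγ.trans (hval_lt k))
    exact hj j ((hval_mono j k).1 hγ) ((memU hei _).2 h2)
  · -- `h1`
    intro k e j hjk hej _
    obtain ⟨i, hi, hei⟩ := exU hej
    have h1 : i ∈ G (val k) := hGm (succ_le_of_lt ((hval_mono j k).2 hjk)) hi.1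
    simp only [Set.mem_inter_iff, memU hei, h1, hi.1]
  · -- `h2`
    intro e hj
    simp only [Set.mem_empty_iff_false, iff_false]
    rintro ⟨-, h1⟩
    obtain ⟨i, hi, hei⟩ := exU h1
    rw [← hGκ] at hi
    obtain ⟨γ, hγ, h2⟩ := claim3 _ i hi
    obtain ⟨j, rfl⟩ := hval_surj γ hγ
    exact hj j ((memU hei _).2 h2)
  · -- `h3`
    intro e j hej _
    obtain ⟨i, hi, hei⟩ := exU hej
    have h1 : i ∈ J := hGJ _ hi.1
    simp only [Set.mem_inter_iff, memU hei, h1, hi.1]

/-- GR-4c. General reachability. -/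
theorem reach_general (D : Dig V E) {ι : Type v} (C : ι → Set E)
    (hd : Pairwise (Disjoint on C)) (hc : ∀ i, (C i).Countable) (hb : ∀ i, Bal D (C i))
    (Ω : Set E) (J : Set ι) (hP : PP D C Ω J) :
    Reach D (⋃ i ∈ J, C i) ∅ (Ω ∩ ⋃ i ∈ J, C i) :=
  reach_general_aux D C hd hc hb Ω _ J rfl hP

end Pool.Agent.Helper24.GR
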