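import Mathlib
import Pool.Agent.Helper24.GR.Defs
import Pool.Agent.Helper24.GR.Basic
import Pool.Agent.Helper24.GR.PPDef
import Pool.Agent.Helper24.GR.General
import Pool.Agent.Helper36.GR.Limit
import Pool.Agent.Helper36.GR.Ord
import Pool.Agent.Helper61.GR.EulerOrient
import Pool.Agent.Helper87.GR.Cut
import Pool.Agent.Helper7.GR.Reversion

set_option autoImplicit false

namespace Pool.Agent.Helper24.GR

open Function Order

universe u v

variable {V : Type u} {E : Type v}

/-- GR-7. -/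
theorem exists_limit (D : Dig V E) [LinearOrder V] {ι : Type v} (C : ι → Set E)
    (hd : Pairwise (Disjoint on C)) (hb : ∀ i, Bal D (C i)) :
    ∃ c : V → Bool, ∃ Ω ⊆ ⋃ i, C i, PP D C Ω Set.univ ∧
      ∀ e ∈ ⋃ i, C i, c (D.src e) = c (D.tgt e) →
        (D.flip Ω).src e < (D.flip Ω).tgt e :=
  li_exists_limit D (fun B hB => exists_maxcut D B hB)
    (fun B hB c hc => euler_orient D B hB c hc) C hd hb

/-! ## GR-9  assembly -/

theorem main (D : Dig V E) : ∃ D' : Dig V E, Reversion D D' ∧ ∃ c : V → Bool,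
    (∀ (n : ℕ), 2 ≤ n → ∀ (x : ZMod n → V) (a : ZMod n → E), Injective x →
      (∀ i, D'.src (a i) = x i ∧ D'.tgt (a i) = x (i + 1)) → ∃ i j, c (x i) ≠ c (x j)) ∧
    (∀ (x : ℤ → V) (a : ℤ → E), Injective x →
      (∀ i, D'.src (a i) = x i ∧ D'.tgt (a i) = x (i + 1)) → ∃ i j, c (x i) ≠ c (x j)) := by
  classical
  -- a maximal family
  obtain ⟨FF, hFF⟩ : ∃ FF : Set (Set E), Maximal (fun FF : Set (Set E) =>
      FF.PairwiseDisjoint id ∧ ∀ C ∈ FF, GenCyc D C) FF := by
    apply zorn_subset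
    intro c hc1 hc2
    refine ⟨⋃₀ c, ⟨?_, ?_⟩, fun s hs => Set.subset_sUnion_of_mem hs⟩
    · rintro A ⟨s, hs, hA⟩ B ⟨t, ht, hB⟩ hne
      rcases hc2.total hs ht with h | h
      · exact (hc1 ht).1 (h hA) hB hne
      · exact (hc1 hs).1 hA (h hB) hne
    · rintro A ⟨s, hs, hA⟩
      exact (hc1 hs).2 A hA
  obtain ⟨⟨hd, hcyc⟩, hmax⟩ := hFF
  have hR : ∀ C ⊆ (⋃₀ FF)ᶜ, ¬ GenCyc D C := by
    intro C hC hg
    have h1 : C ∉ FF := by
      intro h1
      obtain ⟨e, he⟩ := hg.nonempty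
      exact hC he ⟨C, h1, he⟩
    have h2 := hmax (y := insert C FF) ⟨?_, ?_⟩ (Set.subset_insert _ _)
    · exact h1 (h2 (Set.mem_insert _ _))
    · apply hd.insert
      intro A hA _
      change Disjoint C A
      rw [Set.disjoint_left]
      intro e he heA
      exact hC he ⟨A, hA, heA⟩
    · rintro A (rfl | hA)
      · exact hg
      · exact hcyc A hA
  obtain ⟨lo, hlo1, hlo2⟩ := exists_order D _ hR
  let _ := lo
  let C : FF → Set E := fun A => A.1
  have hCd : Pairwise (Disjoint on C) := by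
    intro A B hAB
    exact hd A.2 B.2 fun h => hAB (Subtype.ext h)
  have hCu : ⋃ i, C i = ⋃₀ FF := by
    rw [Set.sUnion_eq_iUnion]
  obtain ⟨c, Ω, hΩ, hP, hfwd⟩ := exists_limit D C hCd fun i => (hcyc _ i.2).bal
  have hreach := reach_general D C hCd (fun i => (hcyc _ i.2).countable)
    (fun i => (hcyc _ i.2).bal) Ω Set.univ hP
  have hΩ' : Ω ∩ ⋃ i ∈ (Set.univ : Set FF), C i = Ω := by
    apply Set.inter_eq_left.2
    simpa using hΩ
  rw [hΩ'] at hreach
  refine ⟨D.flip Ω, hreach.reversion, c, ?_⟩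
  have key : ∀ e, c ((D.flip Ω).src e) = c ((D.flip Ω).tgt e) →
      (D.flip Ω).src e < (D.flip Ω).tgt e := by
    intro e he
    by_cases h : e ∈ ⋃₀ FF
    · apply hfwd e (hCu ▸ h)
      by_cases h' : e ∈ Ω
      · rw [flip_src_of_mem h', flip_tgt_of_mem h'] at he
        exact he.symm
      · rw [flip_src_of_notMem h', flip_tgt_of_notMem h'] at he
        exact he
    · have h' : e ∉ Ω := fun h' => h (hCu ▸ hΩ h')
      rw [flip_src_of_notMem h', flip_tgt_of_notMem h']
      exact hlo1 e h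
  constructor
  · intro n hn x a hx ha
    by_contra hcon
    push Not at hcon
    apply hlo2
    refine ⟨fun i => x (i : ZMod n), fun i => ?_⟩
    have := key (a (i : ZMod n)) (by rw [(ha _).1, (ha _).2]; exact hcon _ _)
    rw [(ha _).1, (ha _).2] at this
    simpa using this
  · intro x a hx ha
    by_contra hcon
    push Not at hcon
    apply hlo2
    refine ⟨x, fun i => ?_⟩
    have := key (a i) (by rw [(ha _).1, (ha _).2]; exact hcon _ _)
    rwa [(ha _).1, (ha _).2] at this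

end Pool.Agent.Helper24.GR
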